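import Mathlib

set_option autoImplicit false

/-!
# Groups of odd prime exponent and class two have an integral
-/

open scoped commutatorElement

namespace Pool.Agent.H42IV

universe u

variable {G : Type u} [Group G]

/-- commutators are central -/
def Cl2 (G : Type u) [Group G] : Prop := ∀ x y z : G, ⁅⁅x, y⁆, z⁆ = 1

theorem comm_of_cl2 (h : Cl2 G) (x y z : G) : ⁅x, y⁆ * z = z * ⁅x, y⁆ := by
  have := h x y z
  rw [commutatorElement_eq_one_iff_mul_comm] at this
  exact this

theorem mul_swap (x y : G) : x * y = ⁅x, y⁆ * (y * x) := by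
  rw [commutatorElement_def]; group

theorem comm_mul_left (h : Cl2 G) (x y z : G) : ⁅x * y, z⁆ = ⁅x, z⁆ * ⁅y, z⁆ := by
  have h1 : ⁅x * y, z⁆ = x * ⁅y, z⁆ * x⁻¹ * ⁅x, z⁆ := by
    simp only [commutatorElement_def]; group
  rw [h1, ← comm_of_cl2 h y z x, mul_inv_cancel_right, comm_of_cl2 h]

theorem comm_mul_right (h : Cl2 G) (x y z : G) : ⁅x, y * z⁆ = ⁅x, y⁆ * ⁅x, z⁆ := by
  rw [← inv_inj, commutatorElement_inv, comm_mul_left h, mul_inv_rev, commutatorElement_inv,
    commutatorElement_inv, comm_of_cl2 h]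

theorem comm_central_left {c : G} (hc : ∀ z, c * z = z * c) (x : G) : ⁅c, x⁆ = 1 := by
  rw [commutatorElement_eq_one_iff_mul_comm]; exact hc x

theorem comm_central_right {c : G} (hc : ∀ z, c * z = z * c) (x : G) : ⁅x, c⁆ = 1 := by
  rw [commutatorElement_eq_one_iff_mul_comm]; exact (hc x).symm

theorem pow_central {c : G} (hc : ∀ z, c * z = z * c) (k : ℕ) (z : G) :
    c ^ k * z = z * c ^ k := by
  have h : Commute c z := hc z
  exact h.pow_left k

/-- The operation of Baer. -/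
def bop (k : ℕ) (x y : G) : G := x * y * ⁅x, y⁆ ^ k

theorem comm_pow_left (h : Cl2 G) (x y : G) (k : ℕ) : ⁅x ^ k, y⁆ = ⁅x, y⁆ ^ k := by
  induction k with
  | zero => simp
  | succ k ih => rw [pow_succ, comm_mul_left h, ih, pow_succ]

theorem comm_bop_left (h : Cl2 G) (k : ℕ) (x y z : G) : ⁅bop k x y, z⁆ = ⁅x, z⁆ * ⁅y, z⁆ := by
  rw [bop, comm_mul_left h, comm_mul_left h,
    comm_central_left (pow_central (comm_of_cl2 h x y) k), mul_one]

theorem comm_bop_right (h : Cl2 G) (k : ℕ) (x y z : G) : ⁅x, bop k y z⁆ = ⁅x, y⁆ * ⁅x, z⁆ := by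
  rw [bop, comm_mul_right h, comm_mul_right h,
    comm_central_right (pow_central (comm_of_cl2 h y z) k), mul_one]

theorem bop_assoc (h : Cl2 G) (k : ℕ) (x y z : G) :
    bop k (bop k x y) z = bop k x (bop k y z) := by
  have e1 : bop k (bop k x y) z = bop k x y * z * (⁅x, z⁆ * ⁅y, z⁆) ^ k := by
    rw [bop, comm_bop_left h]
  have e2 : bop k x (bop k y z) = x * bop k y z * (⁅x, y⁆ * ⁅x, z⁆) ^ k := by
    rw [bop, comm_bop_right h]
  have c1 : ∀ a b c d : G, (⁅a, b⁆ * ⁅c, d⁆) ^ k = ⁅a, b⁆ ^ k * ⁅c, d⁆ ^ k := fun a b c d =>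
    (show Commute ⁅a, b⁆ ⁅c, d⁆ from comm_of_cl2 h a b _).mul_pow k
  rw [e1, e2, c1, c1, bop, bop]
  have p1 := pow_central (comm_of_cl2 h x y) k
  have p2 := pow_central (comm_of_cl2 h x z) k
  have p3 := pow_central (comm_of_cl2 h y z) k
  calc x * y * ⁅x, y⁆ ^ k * z * (⁅x, z⁆ ^ k * ⁅y, z⁆ ^ k)
      = x * y * (⁅x, y⁆ ^ k * z) * (⁅x, z⁆ ^ k * ⁅y, z⁆ ^ k) := by group
    _ = x * y * z * (⁅x, y⁆ ^ k * (⁅x, z⁆ ^ k * ⁅y, z⁆ ^ k)) := by rw [p1]; group
    _ = x * y * z * ((⁅x, y⁆ ^ k * ⁅x, z⁆ ^ k) * ⁅y, z⁆ ^ k) := by group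
    _ = x * y * z * (⁅y, z⁆ ^ k * (⁅x, y⁆ ^ k * ⁅x, z⁆ ^ k)) := by rw [p3]
    _ = x * (y * z * ⁅y, z⁆ ^ k) * (⁅x, y⁆ ^ k * ⁅x, z⁆ ^ k) := by group

theorem bop_comm {p k : ℕ} (hp : ∀ x : G, x ^ p = 1) (hk : 2 * k + 1 = p) (h : Cl2 G) (x y : G) :
    bop k x y = bop k y x := by
  rw [bop, bop, mul_swap x y]
  have h1 : ⁅y, x⁆ = ⁅x, y⁆⁻¹ := by rw [commutatorElement_inv]
  have h2 : ⁅x, y⁆ ^ k * ⁅x, y⁆ ^ (k + 1) = 1 := by
    rw [← pow_add, show k + (k + 1) = p by omega, hp]
  rw [comm_of_cl2 h, mul_assoc, h1, inv_pow]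
  congr 1
  rw [← pow_succ', eq_inv_iff_mul_eq_one, ← pow_add, show k + 1 + k = p by omega, hp]

/-- The abelian group of Baer. -/
@[reducible] def grp {p k : ℕ} (hp : ∀ x : G, x ^ p = 1) (hk : 2 * k + 1 = p) (h : Cl2 G) :
    AddCommGroup G where
  add := fun x y => bop k x y
  zero := (1 : G)
  neg := fun x => x⁻¹
  add_assoc := fun x y z => bop_assoc h k x y z
  zero_add := fun x => by
    show bop k 1 x = x
    simp [bop]
  add_zero := fun x => by
    show bop k x 1 = x
    simp [bop]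
  neg_add_cancel := fun x => by
    show bop k x⁻¹ x = 1
    have : ⁅x⁻¹, x⁆ = 1 := by
      rw [commutatorElement_eq_one_iff_mul_comm]
      simp
    simp [bop, this]
  add_comm := fun x y => bop_comm hp hk h x y
  nsmul := @nsmulRec G ⟨1⟩ ⟨fun x y => bop k x y⟩
  zsmul := @zsmulRec G ⟨1⟩ ⟨fun x y => bop k x y⟩ ⟨fun x => x⁻¹⟩
    (@nsmulRec G ⟨1⟩ ⟨fun x y => bop k x y⟩)

theorem comm_central (h : Cl2 G) : ∀ c ∈ commutator G, ∀ z, c * z = z * c := by
  have : commutator G ≤ Subgroup.center G := by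
    rw [commutator_def, Subgroup.commutator_le]
    intro a _ b _
    rw [Subgroup.mem_center_iff]
    intro g
    exact (comm_of_cl2 h a b g).symm
  intro c hc z
  exact ((Subgroup.mem_center_iff.1 (this hc)) z).symm

theorem comm_mem (x y : G) : ⁅x, y⁆ ∈ commutator G := by
  rw [commutator_def]
  exact Subgroup.commutator_mem_commutator (Subgroup.mem_top _) (Subgroup.mem_top _)

theorem exists_proj {K V : Type*} [Field K] [AddCommGroup V] [Module K V] (N : Submodule K V) :
    ∃ q : V → V, (∀ x, q x ∈ N) ∧ (∀ x ∈ N, q x = x) ∧ ∀ x y, q (x + y) = q x + q y := by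
  obtain ⟨q, hq⟩ := LinearMap.exists_leftInverse_of_injective N.subtype N.ker_subtype
  refine ⟨fun x => q x, fun x => (q x).2, fun x hx => ?_, fun x y => ?_⟩
  · have := congrArg (fun l => l ⟨x, hx⟩) hq
    simp only [LinearMap.comp_apply, Submodule.subtype_apply, LinearMap.id_apply] at this
    show ((q x : N) : V) = x
    rw [this]
  · show ((q (x + y) : N) : V) = (q x : V) + (q y : V)
    rw [map_add, Submodule.coe_add]

/-- The key: a function `π` from `G` to the commutator subgroup. -/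
theorem exists_retract {p k : ℕ} (hpp : p.Prime) (hp : ∀ x : G, x ^ p = 1) (hk : 2 * k + 1 = p)
    (h : Cl2 G) :
    ∃ π : G → G, (∀ x, π x ∈ commutator G) ∧ (∀ x ∈ commutator G, π x = x) ∧
      ∀ x y, π (bop k x y) = π x * π y := by
  have hfp : Fact p.Prime := ⟨hpp⟩
  letI iA : AddCommGroup G := grp hp hk h
  have hadd : ∀ x y : G, x + y = bop k x y := fun x y => rfl
  have hnsm : ∀ (n : ℕ) (x : G), n • x = x ^ n := by
    intro n x
    induction n with
    | zero =>
      rw [zero_nsmul, pow_zero]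
      rfl
    | succ n ih =>
      rw [succ_nsmul, ih, hadd]
      have hc : ⁅x ^ n, x⁆ = 1 := by
        rw [commutatorElement_eq_one_iff_mul_comm, ← pow_succ, ← pow_succ']
      rw [bop, hc, one_pow, mul_one, pow_succ]
  letI iM : Module (ZMod p) G := AddCommGroup.zmodModule (n := p) (fun x => by
    rw [hnsm, hp]
    rfl)
  -- the commutator subgroup as a subspace
  let N0 : AddSubgroup G :=
    { carrier := {x | x ∈ commutator G}
      add_mem' := by
        intro a b ha hb
        show (bop k a b) ∈ commutator G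
        rw [bop]
        exact mul_mem (mul_mem ha hb) (pow_mem (comm_mem _ _) _)
      zero_mem' := one_mem (commutator G)
      neg_mem' := by
        intro a ha
        exact inv_mem (show a ∈ commutator G from ha) }
  let N : Submodule (ZMod p) G := AddSubgroup.toZModSubmodule p N0
  obtain ⟨q, hq1, hq2, hq3⟩ := exists_proj N
  refine ⟨q, hq1, fun x hx => hq2 x hx, fun x y => ?_⟩
  have h1 := hq3 x y
  rw [hadd, hadd, bop, bop, comm_central_left (comm_central h _ (hq1 x)), one_pow, mul_one] at h1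
  exact h1

/-- The automorphism which inverts a complement of the commutator subgroup. -/
theorem exists_aut {p : ℕ} (hpp : p.Prime) (h2 : p ≠ 2) (hp : ∀ x : G, x ^ p = 1) (h : Cl2 G) :
    ∃ σ : G ≃* G, ∀ x, ∃ c ∈ commutator G, σ x = x⁻¹ * c := by
  obtain ⟨k, hk⟩ := hpp.odd_of_ne_two h2
  obtain ⟨π, h1, h3, h4⟩ := exists_retract hpp hp hk.symm h
  have hc := comm_central h
  have hcx : ∀ x z, π x * z = z * π x := fun x z => hc _ (h1 x) z
  -- the formula for products
  have hk2 : ∀ c : G, c ^ k * c ^ k * c = 1 := fun c => by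
    rw [← pow_add, ← pow_succ, show k + k + 1 = p by omega, hp]
  have hmul : ∀ x y, π (x * y) * ⁅x, y⁆ ^ k = π x * π y := by
    intro x y
    have e1 : x * y = bop k (bop k x y) (⁅x, y⁆ ^ (k + 1)) := by
      have hcc : ∀ z, ⁅x, y⁆ ^ (k + 1) * z = z * ⁅x, y⁆ ^ (k + 1) :=
        pow_central (comm_of_cl2 h x y) _
      rw [bop, comm_central_right hcc, one_pow, mul_one, bop, mul_assoc, ← pow_add,
        show k + (k + 1) = p by omega, hp, mul_one]
    have e2 : π (x * y) = π x * π y * ⁅x, y⁆ ^ (k + 1) := by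
      conv_lhs => rw [e1]
      rw [h4, h4, h3 _ (pow_mem (comm_mem x y) _)]
    rw [e2, mul_assoc, ← pow_add, show k + 1 + k = p by omega, hp, mul_one]
  have hinv : ∀ x, π x⁻¹ = (π x)⁻¹ := by
    intro x
    have e1 := h4 x⁻¹ x
    have e2 : bop k x⁻¹ x = 1 := by
      have : ⁅x⁻¹, x⁆ = 1 := by
        rw [commutatorElement_eq_one_iff_mul_comm]
        simp
      simp [bop, this]
    rw [e2, h3 1 (one_mem _)] at e1
    exact eq_inv_of_mul_eq_one_left e1.symm
  -- the map
  let f : G → G := fun x => x⁻¹ * (π x * π x)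
  have hf2 : ∀ x, f (f x) = x := by
    intro x
    have e1 : π (f x) = π x := by
      have a1 : f x = bop k x⁻¹ (π x * π x) := by
        have hcc : ∀ z, (π x * π x) * z = z * (π x * π x) :=
          hc _ (mul_mem (h1 x) (h1 x))
        rw [bop, comm_central_right hcc, one_pow, mul_one]
      rw [a1, h4, hinv, h3 _ (mul_mem (h1 x) (h1 x)), inv_mul_cancel_left]
    show (f x)⁻¹ * (π (f x) * π (f x)) = x
    rw [e1]
    show (x⁻¹ * (π x * π x))⁻¹ * (π x * π x) = x
    have hcc : (π x * π x) * x = x * (π x * π x) := hc _ (mul_mem (h1 x) (h1 x)) x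
    rw [mul_inv_rev, inv_inv, mul_assoc, ← hcc, inv_mul_cancel_left]
  have hfm : ∀ x y, f (x * y) = f x * f y := by
    intro x y
    obtain ⟨c, hcd⟩ : ∃ c, c = ⁅x, y⁆ := ⟨_, rfl⟩
    obtain ⟨a, ha⟩ : ∃ a, a = π x := ⟨_, rfl⟩
    obtain ⟨b, hb⟩ : ∃ b, b = π y := ⟨_, rfl⟩
    obtain ⟨P, hP⟩ : ∃ P, P = π (x * y) := ⟨_, rfl⟩
    have ca : ∀ z, a * z = z * a := by rw [ha]; exact hcx x
    have cb : ∀ z, b * z = z * b := by rw [hb]; exact hcx y
    have cP : ∀ z, P * z = z * P := by rw [hP]; exact hcx (x * y)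
    have cc : ∀ z, c * z = z * c := by rw [hcd]; exact comm_of_cl2 h x y
    have e0 : P * c ^ k = a * b := by rw [hP, hcd, ha, hb]; exact hmul x y
    have e1 : P * P = (a * a) * (b * b) * c := by
      calc P * P = P * P * (c ^ k * c ^ k * c) := by rw [hk2, mul_one]
        _ = P * (P * c ^ k) * (c ^ k * c) := by group
        _ = P * (c ^ k * P) * (c ^ k * c) := by rw [cP (c ^ k)]
        _ = (P * c ^ k) * (P * c ^ k) * c := by group
        _ = (a * b) * (a * b) * c := by rw [e0]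
        _ = a * (b * a) * b * c := by group
        _ = a * (a * b) * b * c := by rw [cb a]
        _ = (a * a) * (b * b) * c := by group
    show (x * y)⁻¹ * (π (x * y) * π (x * y)) = (x⁻¹ * (π x * π x)) * (y⁻¹ * (π y * π y))
    rw [← hP, ← ha, ← hb, e1]
    have e2 : (x * y)⁻¹ * c = x⁻¹ * y⁻¹ := by
      rw [hcd, commutatorElement_def]
      group
    have caa : ∀ z, (a * a) * z = z * (a * a) := fun z => by
      rw [mul_assoc, ca z, ← mul_assoc, ca z, mul_assoc]
    calc (x * y)⁻¹ * ((a * a) * (b * b) * c) = (x * y)⁻¹ * (c * ((a * a) * (b * b))) := by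
          rw [cc]
      _ = ((x * y)⁻¹ * c) * ((a * a) * (b * b)) := by group
      _ = x⁻¹ * (y⁻¹ * (a * a)) * (b * b) := by rw [e2]; group
      _ = x⁻¹ * ((a * a) * y⁻¹) * (b * b) := by rw [caa y⁻¹]
      _ = (x⁻¹ * (a * a)) * (y⁻¹ * (b * b)) := by group
  exact ⟨{ toFun := f, invFun := f, left_inv := hf2, right_inv := hf2, map_mul' := hfm },
    fun x => ⟨_, mul_mem (h1 x) (h1 x), rfl⟩⟩

/-- Every group of odd prime exponent and of class at most two is the commutator subgroup of a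
group. -/
theorem has_integral {p : ℕ} (hpp : p.Prime) (h2 : p ≠ 2) (hp : ∀ x : G, x ^ p = 1)
    (h : Cl2 G) : ∃ (H : Type u) (_ : Group H), Nonempty (commutator H ≃* G) := by
  obtain ⟨σ, hσ⟩ := exists_aut hpp h2 hp h
  obtain ⟨k, hk⟩ := hpp.odd_of_ne_two h2
  let A : Subgroup (MulAut G) := Subgroup.zpowers σ
  refine ⟨G ⋊[A.subtype] A, inferInstance, ?_⟩
  have key : commutator (G ⋊[A.subtype] A) = (SemidirectProduct.inl : G →* G ⋊[A.subtype] A).range := by
    apply le_antisymm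
    · rw [SemidirectProduct.range_inl_eq_ker_rightHom, commutator_def, Subgroup.commutator_le]
      intro a _ b _
      rw [MonoidHom.mem_ker, map_commutatorElement, commutatorElement_eq_one_iff_mul_comm]
      have hcm : ∀ s t : A, s * t = t * s := by
        rintro ⟨s, m, rfl⟩ ⟨t, n, rfl⟩
        apply Subtype.ext
        show σ ^ m * σ ^ n = σ ^ n * σ ^ m
        rw [← zpow_add, ← zpow_add, add_comm]
      exact hcm _ _
    · -- the elements of `G` in the commutator subgroup
      let K : Subgroup G := (commutator (G ⋊[A.subtype] A)).comap SemidirectProduct.inl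
      have hK1 : commutator G ≤ K := by
        rw [commutator_def, Subgroup.commutator_le]
        intro a _ b _
        show SemidirectProduct.inl ⁅a, b⁆ ∈ commutator (G ⋊[A.subtype] A)
        rw [map_commutatorElement]
        exact comm_mem _ _
      have hK2 : ∀ x, σ x * x⁻¹ ∈ K := by
        intro x
        show SemidirectProduct.inl (σ x * x⁻¹) ∈ commutator (G ⋊[A.subtype] A)
        have e1 : (SemidirectProduct.inl (σ x * x⁻¹) : G ⋊[A.subtype] A) =
            ⁅(SemidirectProduct.inr (⟨σ, Subgroup.mem_zpowers σ⟩ : A) : G ⋊[A.subtype] A),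
              SemidirectProduct.inl x⁆ := by
          rw [commutatorElement_def, map_mul, map_inv]
          congr 1
          rw [← map_inv SemidirectProduct.inr, ← SemidirectProduct.inl_aut]
          rfl
        rw [e1]
        exact comm_mem _ _
      have hK3 : ∀ x, x ^ 2 ∈ K := by
        intro x
        obtain ⟨c, hc, hx⟩ := hσ x
        have e1 := hK2 x
        rw [hx] at e1
        have hcx : c * x⁻¹ = x⁻¹ * c := comm_central h c hc x⁻¹
        have e2 : x⁻¹ * c * x⁻¹ = (x ^ 2)⁻¹ * c := by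
          rw [mul_assoc, hcx, pow_two, mul_inv_rev, mul_assoc]
        rw [e2] at e1
        exact inv_mem_iff.1 ((Subgroup.mul_mem_cancel_right K (hK1 hc)).1 e1)
      have hK4 : ∀ x, x ∈ K := by
        intro x
        have e1 := pow_mem (hK3 x) (k + 1)
        rw [← pow_mul, show 2 * (k + 1) = p + 1 by omega, pow_succ, hp, one_mul] at e1
        exact e1
      rintro _ ⟨x, rfl⟩
      exact hK4 x
  rw [key]
  exact ⟨(MonoidHom.ofInjective SemidirectProduct.inl_injective).symm⟩

/-- The Heisenberg group modulo `p`, in symmetric coordinates. -/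
structure Heis (p : ℕ) where
  /-- first coordinate -/
  a : ZMod p
  /-- second coordinate -/
  b : ZMod p
  /-- central coordinate -/
  c : ZMod p

namespace Heis

variable {p : ℕ}

@[ext] theorem ext' {x y : Heis p} (h1 : x.a = y.a) (h2 : x.b = y.b) (h3 : x.c = y.c) : x = y := by
  cases x; cases y; simp_all

instance : Mul (Heis p) := ⟨fun x y => ⟨x.a + y.a, x.b + y.b, x.c + y.c + (x.a * y.b - x.b * y.a)⟩⟩
instance : One (Heis p) := ⟨⟨0, 0, 0⟩⟩
instance : Inv (Heis p) := ⟨fun x => ⟨-x.a, -x.b, -x.c⟩⟩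

@[simp] theorem mul_a (x y : Heis p) : (x * y).a = x.a + y.a := rfl
@[simp] theorem mul_b (x y : Heis p) : (x * y).b = x.b + y.b := rfl
@[simp] theorem mul_c (x y : Heis p) :
    (x * y).c = x.c + y.c + (x.a * y.b - x.b * y.a) := rfl
@[simp] theorem one_a : (1 : Heis p).a = 0 := rfl
@[simp] theorem one_b : (1 : Heis p).b = 0 := rfl
@[simp] theorem one_c : (1 : Heis p).c = 0 := rfl
@[simp] theorem inv_a (x : Heis p) : (x⁻¹).a = -x.a := rfl
@[simp] theorem inv_b (x : Heis p) : (x⁻¹).b = -x.b := rfl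
@[simp] theorem inv_c (x : Heis p) : (x⁻¹).c = -x.c := rfl

instance : Group (Heis p) :=
  Group.ofLeftAxioms
    (fun x y z => by ext <;> simp <;> ring)
    (fun x => by ext <;> simp)
    (fun x => by ext <;> simp; ring)

theorem pow_eq (x : Heis p) (n : ℕ) :
    (x ^ n).a = n * x.a ∧ (x ^ n).b = n * x.b ∧ (x ^ n).c = n * x.c := by
  induction n with
  | zero => simp
  | succ n ih =>
    obtain ⟨h1, h2, h3⟩ := ih
    rw [pow_succ]
    refine ⟨?_, ?_, ?_⟩
    · rw [mul_a, h1]; push_cast; ring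
    · rw [mul_b, h2]; push_cast; ring
    · rw [mul_c, h1, h2, h3]; push_cast; ring

theorem exp (x : Heis p) : x ^ p = 1 := by
  obtain ⟨h1, h2, h3⟩ := pow_eq x p
  ext
  · rw [h1]; simp
  · rw [h2]; simp
  · rw [h3]; simp

theorem cl2 : Cl2 (Heis p) := by
  intro x y z
  rw [commutatorElement_eq_one_iff_mul_comm]
  have h1 : (⁅x, y⁆).a = 0 := by rw [commutatorElement_def]; simp
  have h2 : (⁅x, y⁆).b = 0 := by rw [commutatorElement_def]; simp
  ext
  · rw [mul_a, mul_a, add_comm]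
  · rw [mul_b, mul_b, add_comm]
  · rw [mul_c, mul_c, h1, h2]; ring

theorem not_comm (hp : p.Prime) (h2 : p ≠ 2) : ∃ x y : Heis p, x * y ≠ y * x := by
  have hf : Fact p.Prime := ⟨hp⟩
  refine ⟨⟨1, 0, 0⟩, ⟨0, 1, 0⟩, fun h => ?_⟩
  have h3 := congrArg Heis.c h
  simp only [mul_c, mul_one, mul_zero, sub_zero, zero_sub, add_zero, zero_add] at h3
  have h4 : ((2 : ℕ) : ZMod p) = 0 := by
    push_cast
    linear_combination h3
  rw [ZMod.natCast_eq_zero_iff] at h4
  exact h2 ((Nat.prime_dvd_prime_iff_eq hp Nat.prime_two).1 h4)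

end Heis

end Pool.Agent.H42IV
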